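import Pool.Agent.Helper78.DT.Goals3
import Pool.Agent.Helper78.LM.As1

/-!
# Project DT, packet PTR: the runs are computed in polynomial time
-/

set_option autoImplicit false

namespace Pool.Agent.Helper37.DT

open Pool.Agent.Helper78.DT Pool.Agent.Helper81.CC Pool.Agent.Helper51.ZP

/-! ### Removing repetitions -/

/-- One step of the computation of `dedup`. -/
def dst (acc : List ℕ) (v : ℕ) : List ℕ := if v ∈ acc then acc else v :: acc

theorem dedup_eq (l : List ℕ) : l.reverse.foldl dst [] = l.dedup := by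
  induction l with
  | nil => rfl
  | cons v l ih =>
    rw [List.reverse_cons, List.foldl_append, ih]
    simp only [List.foldl_cons, List.foldl_nil]
    unfold dst
    by_cases h : v ∈ l
    · rw [if_pos (List.mem_dedup.2 h), List.dedup_cons_of_mem h]
    · rw [if_neg (fun h' => h (List.mem_dedup.1 h')), List.dedup_cons_of_notMem h]

theorem pt_dedup {γ : Type} [ToData γ] {l : γ → List ℕ} (hl : PolyTime l) :
    PolyTime fun c => (l c).dedup := by
  have h1 : PolyTime fun c => (l c).reverse.foldl dst [] := by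
    refine PolyTime.foldl_add (s0 := fun _ : γ => ([] : List ℕ)) (step := fun _ acc v => dst acc v)
      (PolyTime.reverse hl) (by fun_prop) ?_ (C := fun c => sz (l c) + 1)
      (hl.bd.add (PBd.const 1)) ?_
    · unfold dst
      exact PolyTime.itep (PolyTime.decide_mem (by fun_prop) (by fun_prop)) (by fun_prop)
        (by fun_prop)
    · intro c s v hv
      have h2 : sz v ≤ sz (l c) := sz_le_of_mem (List.mem_reverse.1 hv)
      change sz (dst s v) ≤ _
      unfold dst
      split_ifs with h
      · omega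
      · rw [sz_cons]
        omega
  exact PolyTime.congr h1 fun c => dedup_eq _

/-! ### The machine -/

section

variable {α : Type} [ToData α] (A : Machine α) {γ : Type} [ToData γ]

theorem pt_act : PolyTime A.act := Pool.Agent.Helper78.LM.PT_of_comp A.act_poly

theorem pt_m : PolyTime A.m := Pool.Agent.Helper78.LM.PT_of_comp A.m_poly

theorem pt_T : PolyTime A.T := Pool.Agent.Helper78.LM.PT_of_comp A.T_poly

theorem pt_w : PolyTime A.w := Pool.Agent.Helper78.LM.PT_of_comp A.w_poly

theorem pt_act' {x : γ → α} {i : γ → ℕ} {a : γ → List Bool} (hx : PolyTime x) (hi : PolyTime i)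
    (ha : PolyTime a) : PolyTime fun c => A.act (x c, i c, a c) :=
  PolyTime.comp (g := A.act) (f := fun c => (x c, i c, a c)) (pt_act A) (by fun_prop)

theorem length_iter_stp (x : α) (i : ℕ) (b : ℕ → Bool) (k : ℕ) :
    ((Pool.Agent.Helper78.DT.stp A x i b)^[k] []).length ≤ k := by
  induction k with
  | zero => simp
  | succ k ih =>
    rw [Function.iterate_succ_apply']
    generalize (Pool.Agent.Helper78.DT.stp A x i b)^[k] [] = a at *
    unfold Pool.Agent.Helper78.DT.stp
    split_ifs with h
    · rw [List.length_append, List.length_singleton]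
      omega
    · omega

theorem pt_hist {x : γ → α} {i : γ → ℕ} {b : γ → ℕ → Bool} (hx : PolyTime x) (hi : PolyTime i)
    (hb : PolyTime (fun z : γ × ℕ => b z.1 z.2)) :
    PolyTime fun c => hist A (x c) (i c) (b c) := by
  have hw : PolyTime fun c => A.w (x c) := PolyTime.comp (pt_w A) hx
  refine PolyTime.iterate_bd (n := fun c => A.w (x c)) (s0 := fun _ => ([] : List Bool))
    (step := fun c a => Pool.Agent.Helper78.DT.stp A (x c) (i c) (b c) a) hw (by fun_prop) ?_
    (B := fun c => 4 * A.w (x c) + 1) (((PBd.const 4).mul (PBd.nat hw)).add (PBd.const 1)) ?_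
  · have h1 : PolyTime fun z : γ × List Bool => A.act (x z.1, i z.1, z.2) :=
      pt_act' A (by fun_prop) (by fun_prop) (by fun_prop)
    have h2 : PolyTime fun z : γ × List Bool => b z.1 (A.act (x z.1, i z.1, z.2) - 3) :=
      PolyTime.comp (g := fun z : γ × ℕ => b z.1 z.2)
        (f := fun z : γ × List Bool => (z.1, A.act (x z.1, i z.1, z.2) - 3)) hb (by fun_prop)
    unfold Pool.Agent.Helper78.DT.stp
    exact PolyTime.itep (PolyTime.decide_le (by fun_prop) h1)
      (PolyTime.append (by fun_prop) (PolyTime.list_cons h2 (by fun_prop))) (by fun_prop)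
  · intro c k hk
    have h1 := length_iter_stp A (x c) (i c) (b c) k
    have h2 := sz_bools ((Pool.Agent.Helper78.DT.stp A (x c) (i c) (b c))^[k] [])
    change sz ((Pool.Agent.Helper78.DT.stp A (x c) (i c) (b c))^[k] []) ≤ _
    omega

theorem pt_rd {x : γ → α} {i : γ → ℕ} {a : γ → List Bool} (hx : PolyTime x) (hi : PolyTime i)
    (ha : PolyTime a) : PolyTime fun c => rd A (x c) (i c) (a c) := by
  unfold rd
  refine pt_dedup ?_
  have h1 : PolyTime fun z : γ × ℕ => A.act (x z.1, i z.1, (a z.1).take z.2) - 3 := by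
    have := pt_act' A (x := fun z : γ × ℕ => x z.1) (i := fun z => i z.1)
      (a := fun z => (a z.1).take z.2) (by fun_prop) (by fun_prop) (by fun_prop)
    fun_prop
  have hm : PolyTime fun c => A.m (x c) := PolyTime.comp (pt_m A) hx
  refine PolyTime.filter (f := fun c v => decide (v < A.m (x c)))
    (l := fun c => (List.range (a c).length).map fun k => A.act (x c, i c, (a c).take k) - 3)
    (PolyTime.list_map (f := fun c k => A.act (x c, i c, (a c).take k) - 3) (by fun_prop) h1) ?_
  have hm' : PolyTime fun z : γ × ℕ => A.m (x z.1) :=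
    PolyTime.comp (g := fun c => A.m (x c)) hm (by fun_prop)
  exact PolyTime.decide_lt (by fun_prop) hm'

theorem pt_okh {x : γ → α} {W K t : γ → ℕ} {h : γ → ℕ → ℕ} {i : γ → ℕ} {a : γ → List Bool}
    (hx : PolyTime x) (hW : PolyTime W) (hK : PolyTime K) (ht : PolyTime t)
    (hh : PolyTime (fun z : γ × ℕ => h z.1 z.2)) (hi : PolyTime i) (ha : PolyTime a) :
    PolyTime fun c => okh A (x c) (W c) (K c) (t c) (h c) (i c) (a c) := by
  have hr := pt_rd A hx hi ha
  unfold okh
  refine PolyTime.and (PolyTime.decide_le (PolyTime.length hr) hW) ?_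
  refine PolyTime.all (f := fun c j => decide (((rd A (x c) (i c) (a c)).filter
    fun v => decide (h c v = j)).length ≤ t c)) (by fun_prop) ?_
  have hr' : PolyTime fun z : γ × ℕ => rd A (x z.1) (i z.1) (a z.1) :=
    PolyTime.comp (g := fun c => rd A (x c) (i c) (a c)) hr (by fun_prop)
  refine PolyTime.decide_le (PolyTime.length ?_) (by fun_prop)
  refine PolyTime.filter (f := fun (z : γ × ℕ) v => decide (h z.1 v = z.2)) hr' ?_
  have h2 : PolyTime fun y : (γ × ℕ) × ℕ => h y.1.1 y.2 :=
    PolyTime.comp (g := fun z : γ × ℕ => h z.1 z.2) (f := fun y : (γ × ℕ) × ℕ => (y.1.1, y.2)) hh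
      (by fun_prop)
  exact PolyTime.decide_eq h2 (by fun_prop)

theorem pt_out {x : γ → α} {W K t : γ → ℕ} {h : γ → ℕ → ℕ} {b : γ → ℕ → Bool} {i : γ → ℕ}
    (hx : PolyTime x) (hW : PolyTime W) (hK : PolyTime K) (ht : PolyTime t)
    (hh : PolyTime (fun z : γ × ℕ => h z.1 z.2)) (hb : PolyTime (fun z : γ × ℕ => b z.1 z.2))
    (hi : PolyTime i) :
    PolyTime fun c => out A (x c) (W c) (K c) (t c) (h c) (b c) (i c) := by
  have h1 := pt_hist A hx hi hb
  have h2 := pt_okh A hx hW hK ht hh hi h1
  unfold out
  exact PolyTime.ite h2 (pt_act' A hx hi h1) (by fun_prop)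

end

theorem ptr : PtrStmt := by
  intro α _ A γ _ x W K t h b hx hW hK ht hh hb
  have hT : PolyTime fun c => A.T (x c) := PolyTime.comp (pt_T A) hx
  have ho : PolyTime fun z : γ × ℕ => out A (x z.1) (W z.1) (K z.1) (t z.1) (h z.1) (b z.1) z.2 := by
    refine pt_out A (x := fun z : γ × ℕ => x z.1) (W := fun z : γ × ℕ => W z.1)
      (K := fun z : γ × ℕ => K z.1) (t := fun z : γ × ℕ => t z.1) (h := fun z : γ × ℕ => h z.1)
      (b := fun z : γ × ℕ => b z.1) (i := fun z : γ × ℕ => z.2) (by fun_prop) (by fun_prop)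
      (by fun_prop) (by fun_prop) ?_ ?_ (by fun_prop)
    · exact PolyTime.comp (g := fun z : γ × ℕ => h z.1 z.2)
        (f := fun y : (γ × ℕ) × ℕ => (y.1.1, y.2)) hh (by fun_prop)
    · exact PolyTime.comp (g := fun z : γ × ℕ => b z.1 z.2)
        (f := fun y : (γ × ℕ) × ℕ => (y.1.1, y.2)) hb (by fun_prop)
  have hf : PolyTime fun c => (List.range (A.T (x c))).find?
      fun i => decide (out A (x c) (W c) (K c) (t c) (h c) (b c) i ≠ 0) := by
    refine PolyTime.find? (f := fun c i =>
      decide (out A (x c) (W c) (K c) (t c) (h c) (b c) i ≠ 0)) (by fun_prop) ?_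
    exact PolyTime.decide_ne ho (by fun_prop)
  have hg : PolyTime fun c => ((List.range (A.T (x c))).find?
      fun i => decide (out A (x c) (W c) (K c) (t c) (h c) (b c) i ≠ 0)).elim false
      fun i => decide (out A (x c) (W c) (K c) (t c) (h c) (b c) i = 2) := by
    refine PolyTime.option_elim (g := fun c i =>
      decide (out A (x c) (W c) (K c) (t c) (h c) (b c) i = 2)) hf (by fun_prop) ?_
    exact PolyTime.decide_eq ho (by fun_prop)
  refine PolyTime.congr hg fun c => ?_
  unfold res
  cases (List.range (A.T (x c))).find?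
      fun i => decide (out A (x c) (W c) (K c) (t c) (h c) (b c) i ≠ 0) <;> rfl

end Pool.Agent.Helper37.DT
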